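import Pool.Agent.helper80.EN.Spec

-- Row EXB of MP_43ab4e_al: the automorphism form of EXA, by the semidirect product with the
-- infinite cyclic group.

set_option autoImplicit false

namespace Pool.Agent.helper80.EN

open Subgroup

universe u

namespace EXBaux

variable {K : Type u} [Group K]

-- the action of the infinite cyclic group
def act (α : MulAut K) : Multiplicative ℤ →* MulAut K := zpowersHom (MulAut K) α

theorem act_one (α : MulAut K) : act α (Multiplicative.ofAdd 1) = α := by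
  simp [act]

abbrev TT (α : MulAut K) : Type u := K ⋊[act α] Multiplicative ℤ

-- the element a
def aa (α : MulAut K) : TT α := (SemidirectProduct.inr (Multiplicative.ofAdd (1 : ℤ)))⁻¹

-- the embedding of K
def ii (α : MulAut K) : K →* TT α := SemidirectProduct.inl

theorem ii_inj (α : MulAut K) : Function.Injective (ii α) := SemidirectProduct.inl_injective

theorem conj_aa (α : MulAut K) (k : K) : (aa α)⁻¹ * ii α k * aa α = ii α (α k) := by
  have h := SemidirectProduct.inl_aut (φ := act α) (Multiplicative.ofAdd (1 : ℤ)) k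
  rw [act_one] at h
  have h2 : ii α (α k) = SemidirectProduct.inr (Multiplicative.ofAdd (1 : ℤ)) * ii α k *
    (SemidirectProduct.inr (Multiplicative.ofAdd (1 : ℤ)))⁻¹ := by
    show SemidirectProduct.inl (α k) = _
    rw [h, map_inv]
    rfl
  rw [h2, aa, inv_inv]

theorem com_ii (α : MulAut K) (k : K) : com (ii α k) (aa α) = ii α (del α k) := by
  unfold com del
  rw [mul_assoc, mul_assoc, ← mul_assoc (aa α)⁻¹, conj_aa, map_mul, map_inv]

theorem icom_ii (α : MulAut K) (k : K) (n : ℕ) :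
    icom (ii α k) (aa α) n = ii α ((del α)^[n] k) := by
  induction n with
  | zero => rfl
  | succ n ih =>
    show com (icom (ii α k) (aa α) n) (aa α) = _
    rw [ih, com_ii, Function.iterate_succ_apply']

theorem range_normal (α : MulAut K) : (ii α).range.Normal := by
  have h : (ii α).range = (SemidirectProduct.rightHom (φ := act α)).ker :=
    SemidirectProduct.range_inl_eq_ker_rightHom
  rw [h]
  infer_instance

theorem ii_aa_top (α : MulAut K) : (ii α).range ⊔ zpowers (aa α) = ⊤ := by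
  rw [eq_top_iff]
  intro t _
  rw [← SemidirectProduct.inl_left_mul_inr_right t]
  refine mul_mem ?_ ?_
  · exact (le_sup_left : (ii α).range ≤ _) ⟨t.left, rfl⟩
  · refine (le_sup_right : zpowers (aa α) ≤ _) ?_
    refine mem_zpowers_iff.2 ⟨-(Multiplicative.toAdd t.right), ?_⟩
    unfold aa
    rw [inv_zpow', neg_neg, ← map_zpow]
    congr 1
    rw [← ofAdd_zsmul]
    simp

theorem conj_int (α : MulAut K) (M : Subgroup K) (h1 : ∀ m ∈ M, α m ∈ M)
    (h2 : ∀ m ∈ M, α⁻¹ m ∈ M) (g : Multiplicative ℤ) : ∀ m ∈ M, act α g m ∈ M := by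
  have hn : ∀ n : ℕ, ∀ m ∈ M, (α ^ n) m ∈ M := by
    intro n
    induction n with
    | zero => intro m hm; simpa using hm
    | succ n ih =>
      intro m hm
      rw [pow_succ, MulAut.mul_apply]
      exact ih _ (h1 m hm)
  have hn' : ∀ n : ℕ, ∀ m ∈ M, (α⁻¹ ^ n) m ∈ M := by
    intro n
    induction n with
    | zero => intro m hm; simpa using hm
    | succ n ih =>
      intro m hm
      rw [pow_succ, MulAut.mul_apply]
      exact ih _ (h2 m hm)
  have hg : act α g = α ^ (Multiplicative.toAdd g) := by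
    unfold act
    rw [zpowersHom_apply]
  intro m hm
  rw [hg]
  rcases Int.eq_nat_or_neg (Multiplicative.toAdd g) with ⟨n, hh | hh⟩
  · rw [hh, zpow_natCast]
    exact hn n m hm
  · rw [hh, zpow_neg, zpow_natCast, ← inv_pow]
    exact hn' n m hm

theorem map_normal (α : MulAut K) (M : Subgroup K) [hM : M.Normal] (h1 : ∀ m ∈ M, α m ∈ M)
    (h2 : ∀ m ∈ M, α⁻¹ m ∈ M) : (M.map (ii α)).Normal := by
  refine ⟨?_⟩
  rintro _ ⟨m, hm, rfl⟩ t
  rw [← SemidirectProduct.inl_left_mul_inr_right t]
  have e1 : (SemidirectProduct.inr t.right : TT α) * ii α m * (SemidirectProduct.inr t.right)⁻¹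
      = ii α (act α t.right m) := by
    have h := SemidirectProduct.inl_aut (φ := act α) t.right m
    show _ = SemidirectProduct.inl (act α t.right m)
    rw [h, map_inv]
    rfl
  refine ⟨t.left * act α t.right m * t.left⁻¹, hM.conj_mem _ (conj_int α M h1 h2 _ m hm) _, ?_⟩
  rw [map_mul, map_mul, ← e1, map_inv]
  have e2 : (SemidirectProduct.inl t.left : TT α) = ii α t.left := rfl
  rw [e2, mul_inv_rev]
  simp only [mul_assoc]

end EXBaux

open EXBaux in
theorem EXB (hA : EXA_stmt.{u}) (hR : HPR_stmt.{u}) (hT : TRF_stmt.{u}) : EXB_stmt.{u} := by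
  intro K _ α M hMn h1 h2 hE hL1 hL2
  have hKn : (ii α).range.Normal := range_normal α
  have hMn' : (M.map (ii α)).Normal := map_normal α M h1 h2
  have hle : M.map (ii α) ≤ (ii α).range := by
    rintro _ ⟨m, _, rfl⟩
    exact ⟨m, rfl⟩
  have hEng : EngelOn (ii α).range (aa α) := by
    rintro _ ⟨k, rfl⟩
    obtain ⟨n, hn⟩ := hE k
    exact ⟨n, by rw [icom_ii, hn, map_one]⟩
  have hbM : bra (M.map (ii α)) (aa α) =
      (closure {x : K | ∃ m ∈ M, x = del α m}).map (ii α) := by
    unfold bra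
    rw [MonoidHom.map_closure]
    congr 1
    ext x
    constructor
    · rintro ⟨_, ⟨m, hm, rfl⟩, rfl⟩
      exact ⟨del α m, ⟨m, hm, rfl⟩, (com_ii α m).symm⟩
    · rintro ⟨_, ⟨m, hm, rfl⟩, rfl⟩
      exact ⟨ii α m, ⟨m, hm, rfl⟩, (com_ii α m).symm⟩
  have hbK : bra (ii α).range (aa α) = (Bra α).map (ii α) := by
    unfold bra Bra
    rw [MonoidHom.map_closure]
    congr 1
    ext x
    constructor
    · rintro ⟨_, ⟨m, rfl⟩, rfl⟩
      exact ⟨del α m, ⟨m, rfl⟩, (com_ii α m).symm⟩
    · rintro ⟨_, ⟨m, rfl⟩, rfl⟩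
      exact ⟨ii α m, ⟨m, rfl⟩, (com_ii α m).symm⟩
  have hLM : LocNilp (bra (M.map (ii α)) (aa α)) := by
    rw [hbM]
    exact (hT K).2.1 _ (ii α) _ hL1
  have hcomap : M ≤ (M.map (ii α)).comap (ii α) := Subgroup.le_comap_map (ii α) M
  have hLK : LocNilp ((bra (ii α).range (aa α)).map (QuotientGroup.mk' (M.map (ii α)))) := by
    have e : (bra (ii α).range (aa α)).map (QuotientGroup.mk' (M.map (ii α))) =
        ((Bra α).map (QuotientGroup.mk' M)).map
          (QuotientGroup.map M (M.map (ii α)) (ii α) hcomap) := by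
      rw [hbK, Subgroup.map_map, Subgroup.map_map]
      congr 1
    rw [e]
    exact (hT (K ⧸ M)).2.1 _ _ _ hL2
  have ha : aa α ∈ HP (TT α) :=
    hA (TT α) (ii α).range (M.map (ii α)) (aa α) hle (ii_aa_top α) hEng hLM hLK
  have hn : (HP (TT α)).Normal := (hR (TT α)).1
  have hb : bra (ii α).range (aa α) ≤ HP (TT α) := by
    unfold bra
    rw [closure_le]
    rintro _ ⟨k, _, rfl⟩
    have h3 : k⁻¹ * (aa α)⁻¹ * k⁻¹⁻¹ ∈ HP (TT α) := hn.conj_mem _ (inv_mem ha) _
    have h4 := mul_mem h3 ha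
    rw [inv_inv] at h4
    exact h4
  have hl : LocNilp ((Bra α).map (ii α)) := by
    rw [← hbK]
    exact (hT (TT α)).1 _ _ hb (hR (TT α)).2.1
  exact (hT K).2.2.1 _ (ii α) _ (ii_inj α) hl

end Pool.Agent.helper80.EN
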